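import Pool.Agent.H77.S6C.Pu
import Pool.Agent.H86.S6C.Trv

/-!
# Trivial planks: `TRivStmt` from the theorem of helper86
-/

set_option autoImplicit false

namespace Pool.S6C

open Finset Real
open Pool.Agent.H49.Ent Pool.Agent.H32.Dense Pool.STK Pool.KA Pool.KSAT Pool.K2S Pool.PB Pool.KS6

theorem triv_thm : TRivStmt := by
  intro S a R h₁ i₀ c s₂ r D σ hC Q hQ hQ1 ρ hρ w hw hwQ
  rw [min_comm]
  exact trv hC hQ1 hρ w hw hwQ

end Pool.S6C
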