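import Mathlib

/-!
# RX : the pure real lemma of the residual (LEMMA X for the singular part)

`D` loses at most `C (w' - w)` on every window of `[a, b]` (so `D + C id` is
monotone) and at almost every point there are arbitrarily short windows
around the point on which it loses at most `e (y + y')`, for every `e > e0`.
Then `D a ≤ D b + e0 (b - a)`.
-/

open MeasureTheory Set

namespace Pool.H7.RX

theorem rx_err {D : ℝ → ℝ} {a b C e0 : ℝ} (hab : a ≤ b)
    (h3 : ∀ w w', a ≤ w → w ≤ w' → w' ≤ b → D w ≤ D w' + C * (w' - w))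
    (hae : ∀ᵐ w, w ∈ Set.Ioo a b → ∀ e > e0, ∀ d > 0, ∃ y y' : ℝ, 0 ≤ y ∧ 0 ≤ y' ∧
      0 < y + y' ∧ y < d ∧ y' < d ∧ D (w - y) ≤ D (w + y') + e * (y + y')) :
    D a ≤ D b + e0 * (b - a) := by
  set f : ℝ → ℝ := fun s => D s + C * s with hf
  have hmono : MonotoneOn f (uIcc a b) := by
    rw [uIcc_of_le hab]
    intro x hx y hy hxy
    have := h3 x y hx.1 hxy hy.2
    simp only [hf]; nlinarith
  have hint := hmono.intervalIntegrable_deriv
  have hmem := hmono.intervalIntegral_deriv_mem_uIcc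
  have hfab : f a ≤ f b := hmono (by simp) (by simp) hab
  rw [uIcc_of_le (by linarith)] at hmem
  have hder : ∀ᵐ w, w ∈ Set.Ioo a b → C - e0 ≤ deriv f w := by
    have hd := hmono.ae_differentiableWithinAt_of_mem
    filter_upwards [hae, hd] with w hw hdw hwI
    have hwm : w ∈ uIcc a b := by
      rw [uIcc_of_le hab]; exact ⟨hwI.1.le, hwI.2.le⟩
    have hdiff : DifferentiableAt ℝ f w :=
      (hdw hwm).differentiableAt (by
        rw [uIcc_of_le hab]; exact Icc_mem_nhds hwI.1 hwI.2)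
    have hder := hdiff.hasDerivAt
    set m := deriv f w with hm
    by_contra hlt
    push Not at hlt
    -- e with e0 < e, m < C - e - eps
    set eps := (C - e0 - m) / 4 with heps
    have hepos : 0 < eps := by rw [heps]; linarith
    have hlo := (hasDerivAt_iff_isLittleO.1 hder).bound hepos
    rw [Metric.eventually_nhds_iff] at hlo
    obtain ⟨d, hdpos, hdd⟩ := hlo
    obtain ⟨y, y', hy, hy', hyy, hyd, hyd', hD⟩ := hw hwI (e0 + eps) (by linarith) d hdpos
    have h1 := hdd (y := w - y) (by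
      rw [Real.dist_eq]; simp only [sub_sub_cancel_left, abs_neg]
      rw [abs_of_nonneg hy]; exact hyd)
    have h2 := hdd (y := w + y') (by
      rw [Real.dist_eq]; simp only [add_sub_cancel_left]
      rw [abs_of_nonneg hy']; exact hyd')
    simp only [Real.norm_eq_abs, smul_eq_mul] at h1 h2
    have e1 : w - y - w = - y := by ring
    have e2 : w + y' - w = y' := by ring
    rw [e1, abs_neg, abs_of_nonneg hy] at h1
    rw [e2, abs_of_nonneg hy'] at h2
    have h1' := (abs_le.1 h1).1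
    have h2' := (abs_le.1 h2).2
    have hfD : f (w + y') - f (w - y) ≥ (C - (e0 + eps)) * (y + y') := by
      simp only [hf]; nlinarith
    have hup : f (w + y') - f (w - y) ≤ (m + eps) * (y + y') := by nlinarith
    have : (C - (e0 + eps)) * (y + y') ≤ (m + eps) * (y + y') := by linarith
    have := le_of_mul_le_mul_right this hyy
    have : C - e0 - m ≤ 2 * eps := by linarith
    rw [heps] at this
    linarith
  have hconst : ∫ _x in a..b, (C - e0) = (C - e0) * (b - a) := by
    rw [intervalIntegral.integral_const, smul_eq_mul]; ring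
  have hle : ∫ _x in a..b, (C - e0) ≤ ∫ x in a..b, deriv f x := by
    apply intervalIntegral.integral_mono_ae_restrict hab intervalIntegrable_const hint
    rw [← Measure.restrict_congr_set Ioo_ae_eq_Icc]
    rw [Filter.EventuallyLE, ae_restrict_iff' measurableSet_Ioo]
    exact hder
  rw [hconst] at hle
  have := hmem.2
  simp only [hf] at this
  nlinarith

theorem rx {D : ℝ → ℝ} {a b : ℝ} (hab : a ≤ b)
    (h3 : ∀ w w', a ≤ w → w ≤ w' → w' ≤ b → D w ≤ D w' + 3 * (w' - w))
    (hae : ∀ᵐ w, w ∈ Set.Ioo a b → ∀ e > 0, ∀ d > 0, ∃ y y' : ℝ, 0 ≤ y ∧ 0 ≤ y' ∧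
      0 < y + y' ∧ y < d ∧ y' < d ∧ D (w - y) ≤ D (w + y') + e * (y + y')) :
    D a ≤ D b := by
  have := rx_err (e0 := 0) hab h3 hae
  linarith

/-- the rational form, with an error -/
theorem rx_rat_err {D : ℚ → ℝ} {a b : ℚ} {C e0 : ℝ} (hab : a ≤ b)
    (h3 : ∀ w w' : ℚ, a ≤ w → w ≤ w' → w' ≤ b → D w ≤ D w' + C * ((w' : ℝ) - w))
    (hae : ∀ᵐ w : ℝ, w ∈ Set.Ioo (a : ℝ) b → ∀ e > e0, ∀ d > 0, ∃ u u' : ℚ,
      (u : ℝ) < w ∧ w < u' ∧ (u' : ℝ) - u < d ∧ D u ≤ D u' + e * ((u' : ℝ) - u)) :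
    D a ≤ D b + e0 * ((b : ℝ) - a) := by
  set f : ℚ → ℝ := fun s => D s + C * s with hf
  have hmono : ∀ x y : ℚ, a ≤ x → x ≤ y → y ≤ b → f x ≤ f y := by
    intro x y hx hxy hy
    have := h3 x y hx hxy hy
    simp only [hf]; nlinarith
  set A : ℝ → Set ℝ := fun x => {t | ∃ u : ℚ, a ≤ u ∧ u ≤ b ∧ (u : ℝ) ≤ x ∧ t = f u} with hA
  have hbdd : ∀ x, BddAbove (A x) := fun x => ⟨f b, by
    rintro t ⟨u, h1, h2, _, rfl⟩; exact hmono u b h1 h2 le_rfl⟩
  have hne : ∀ x, (a : ℝ) ≤ x → (A x).Nonempty := fun x hx => ⟨f a, a, le_rfl, hab, hx, rfl⟩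
  set F : ℝ → ℝ := fun x => sSup (A x) with hF
  have hFm : ∀ x y, (a : ℝ) ≤ x → x ≤ y → F x ≤ F y := by
    intro x y hx hxy
    exact csSup_le_csSup (hbdd y) (hne x hx) (fun t ht => by
      obtain ⟨u, h1, h2, h3, h4⟩ := ht
      exact ⟨u, h1, h2, h3.trans hxy, h4⟩)
  have hFq : ∀ q : ℚ, a ≤ q → q ≤ b → F q = f q := by
    intro q hq hqb
    apply le_antisymm
    · apply csSup_le (hne q (by exact_mod_cast hq))
      rintro t ⟨u, h1, h2, h3, rfl⟩
      exact hmono u q h1 (by exact_mod_cast h3) hqb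
    · exact le_csSup (hbdd q) ⟨q, hq, hqb, le_rfl, rfl⟩
  set D' : ℝ → ℝ := fun x => F x - C * x with hD'
  have hD'q : ∀ q : ℚ, a ≤ q → q ≤ b → D' q = D q := by
    intro q hq hqb
    simp only [hD', hFq q hq hqb, hf]; ring
  have key := rx_err (D := D') (a := (a : ℝ)) (b := (b : ℝ)) (C := C) (e0 := e0)
    (by exact_mod_cast hab)
    (by
      intro w w' hw hww _
      have := hFm w w' hw hww
      simp only [hD']; nlinarith)
    (by
      filter_upwards [hae] with w hw hwI e he d hd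
      have hr : 0 < min d (min (w - a) (b - w)) :=
        lt_min hd (lt_min (by linarith [hwI.1]) (by linarith [hwI.2]))
      obtain ⟨u, u', h1, h2, h4, h5⟩ := hw hwI e he _ hr
      have hd1 := lt_of_lt_of_le h4 (min_le_left _ _)
      have hd2 := lt_of_lt_of_le h4 ((min_le_right _ _).trans (min_le_left _ _))
      have hd3 := lt_of_lt_of_le h4 ((min_le_right _ _).trans (min_le_right _ _))
      have hua : a ≤ u := by
        have : (a : ℝ) ≤ u := by linarith
        exact_mod_cast this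
      have hub : u' ≤ b := by
        have : (u' : ℝ) ≤ b := by linarith
        exact_mod_cast this
      have huu : u ≤ u' := by
        have : (u : ℝ) ≤ u' := by linarith
        exact_mod_cast this
      refine ⟨w - u, u' - w, by linarith, by linarith, by linarith, by linarith,
        by linarith, ?_⟩
      have e1 : w - (w - (u : ℝ)) = u := by ring
      have e2 : w + ((u' : ℝ) - w) = u' := by ring
      have e3 : w - (u : ℝ) + ((u' : ℝ) - w) = (u' : ℝ) - u := by ring
      rw [e1, e2, e3, hD'q u hua (huu.trans hub), hD'q u' (hua.trans huu) hub]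
      exact h5)
  rw [hD'q a le_rfl hab, hD'q b hab le_rfl] at key
  exact key

theorem rx_rat {D : ℚ → ℝ} {a b : ℚ} (hab : a ≤ b)
    (h3 : ∀ w w' : ℚ, a ≤ w → w ≤ w' → w' ≤ b → D w ≤ D w' + 3 * ((w' : ℝ) - w))
    (hae : ∀ᵐ w : ℝ, w ∈ Set.Ioo (a : ℝ) b → ∀ e > 0, ∀ d > 0, ∃ u u' : ℚ,
      (u : ℝ) < w ∧ w < u' ∧ (u' : ℝ) - u < d ∧ D u ≤ D u' + e * ((u' : ℝ) - u)) :
    D a ≤ D b := by
  have := rx_rat_err (e0 := 0) hab h3 hae
  linarith

end Pool.H7.RX
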